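import Pool.Agent.H543R3.PC.DefsP
import Pool.Agent.H543R3.PC.DefsB

/-!
# Proof systems for sets in the second level of the polynomial hierarchy: definitions
-/

namespace Pool.Agent.H543R3.PC2

open Pool.Agent.NPC Pool.Agent.H628R3.RO Pool.Agent.H543R3.PC

/-- `Π₂` (of the polynomial hierarchy) relative to `A`. -/
def IsPi2 (A : Oracle) (L : Set (List Bool)) : Prop :=
  ∃ (V : List Bool → List Bool) (p : Polynomial ℕ), IsFP A V ∧ ∀ x, x ∈ L ↔
    ∀ u : List Bool, u.length ≤ p.eval x.length →
      ∃ v : List Bool, v.length ≤ p.eval x.length ∧ V (pairBits x (pairBits u v)) = [true]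

/-- Every set in `Π₂` relative to `A` reduces to `K`. -/
def Pi2Hard (A : Oracle) (K : Set (List Bool)) : Prop := ∀ L, IsPi2 A L → Red A L K

/-- Some `Π₂`-complete set has an optimal proof system. -/
def HasOpt2 (A : Oracle) : Prop := ∃ L : Set (List Bool), IsPi2 A L ∧ Pi2Hard A L ∧
  ∃ P, IsOptimal A L P

/-- Some `Π₂`-complete set has a `p`-optimal proof system. -/
def HasPOpt2 (A : Oracle) : Prop := ∃ L : Set (List Bool), IsPi2 A L ∧ Pi2Hard A L ∧
  ∃ P, IsPOptimal A L P

/-! ### The canonical `Π₂`-complete set -/

/-- The length bound for the universally quantified string in the instance `z`. -/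
def zS (z : List Bool) : ℕ := (unpair (zU z)).2.length

/-- The instance of the canonical `NP`-complete set obtained from `z` for the string `u`. -/
def inn (z u : List Bool) : List Bool := zM (zK z) (pairBits (unpair (zU z)).1 u) (zR z)

/-- The canonical `Π₂`-complete set. -/
def can2 (B : List Bool → Bool) (G : GG) : Set (List Bool) :=
  {z | ∀ u : List Bool, u.length ≤ zS z → inn z u ∈ canNP B G}

open Classical in
/-- The cost polynomial of an algorithm. -/
noncomputable def cF (M : Alg) : Polynomial ℕ := if h : ∃ c, CostF M c then h.choose else 0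

/-- The algorithm `M` outputs on `w` a string outside of the canonical `Π₂`-complete set. -/
def PBad (M : Alg) (B : List Bool → Bool) (G : GG) (w : List Bool) : Prop :=
  ∃ z, M.out (mk B G) w = some z ∧ z ∉ can2 B G

/-! ### The guarded proof system -/

/-- The cost of the guarded instance `z`. -/
noncomputable def wT (z : List Bool) : ℕ := (cF (req (zE z)).M₁).eval (zU z).length

/-- The guard. -/
structure okW (S : Finset ℕ) (nH : ℕ) (B : List Bool → Bool) (G : GG) (z : List Bool) : Prop where
  sub : ∀ i ∈ S, i < zE z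
  low : nH ≤ zm z
  grd : wT z + zE z * (wT z + 1) + 2 ^ (zm z + 2) ≤ zR z
  rob : ∀ G', Leg (zE z) S (zm z) (tab (zF z)) G' → ¬ PBad (req (zE z)).M₁ B G' (zU z)
  agr : Agr (zm z) (tab (zF z)) G
  ina : ∀ j, j < zE z → j ∉ S → ∀ n, zm z ≤ j + n → j + n ≤ wT z → ¬ Act G j n

open Classical in
/-- The guarded proof system. -/
noncomputable def semW (S : Finset ℕ) (nH : ℕ) (d : List Bool) (B : List Bool → Bool)
    (x : List Bool) (G : GG) : List Bool :=
  if okW S nH B G x then ((req (zE x)).M₁.out (mk B G) (zU x)).getD d else d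

open Classical in
/-- The brute-force proof system. -/
noncomputable def semBW (d : List Bool) (B : List Bool → Bool) (x : List Bool) (G : GG) :
    List Bool :=
  if 2 ^ ((unpair x).1.length + 2) ≤ (unpair x).2.length ∧ (unpair x).1 ∈ can2 B G
    then (unpair x).1 else d

/-- `B` is a guide for the old and the new tasks. -/
def GuideW (B : List Bool → Bool) : Prop :=
  GuideP B ∧ (∀ S nH d, ∃ M : Alg, ∀ G x, M.out (mk B G) x = some (semW S nH d B x G)) ∧
    ∀ d, ∃ M : Alg, ∀ G x, M.out (mk B G) x = some (semBW d B x G)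

end Pool.Agent.H543R3.PC2
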