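import Pool.Agent.H543R3.PC2.Defs
import Pool.Agent.H628R3.RO.A3

/-!
# W1: one algorithm after the other, for all oracles at once
-/

namespace Pool.Agent.H543R3.PC2

open Pool.Agent.NPC Pool.Agent.H628R3.RO Pool.Agent.H543R3.PC

theorem seq_out (M N : Alg) {φ : List Bool × List Bool → List Bool}
    {ψ : List Bool × List Bool × List Bool → List Bool} (hφ : Poly φ) (hψ : Poly ψ) :
    ∃ R : Alg, ∀ (A : Oracle) (x z z' : List Bool), M.out A x = some z →
      N.out A (φ (x, z)) = some z' → R.out A x = some (ψ (x, z, z')) := by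
  obtain ⟨b, hb⟩ := A2.out_bound M
  obtain ⟨q, hq⟩ := hφ.sz_le
  set r : Polynomial ℕ := q.comp (Polynomial.C 4 * Polynomial.X + Polynomial.C 4 * b +
    Polynomial.C 3) with hr
  refine ⟨A2.seqAlg M N hφ hψ (M.p + N.p.comp r), fun A x z z' h1 h2 => ?_⟩
  have h3 : (φ (x, z)).length ≤ r.eval x.length := by
    have h4 := length_lt_sz (φ (x, z))
    have h5 := hq (x, z)
    have h6 := hb A x z h1
    have h7 := sz_listBool_le x
    have h8 := sz_listBool_le z
    refine h4.le.trans (h5.trans ?_)
    rw [hr, Polynomial.eval_comp]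
    apply eval_mono
    simp only [sz_pair, Polynomial.eval_add, Polynomial.eval_mul, Polynomial.eval_C,
      Polynomial.eval_X]
    omega
  refine A2.seq_run1 M N hφ hψ (M.p + N.p.comp r) A x z _ _ h2 _ [] rfl h1 _ ?_
  have h9 := eval_mono N.p h3
  change (M.p + N.p.comp r).eval x.length ≥ _
  rw [Polynomial.eval_add, Polynomial.eval_comp]
  omega

end Pool.Agent.H543R3.PC2
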