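import Pool.Agent.H543R3.PC2.Defs
import Pool.Agent.H543R3.PC.A1
import Pool.Agent.H543R3.PC.A2
import Pool.Agent.H543R3.PC.A3
import Pool.Agent.H543R3.PC.E1

/-!
# W2: the canonical `Π₂`-complete set is local
-/

namespace Pool.Agent.H543R3.PC2

open Pool.Agent.NPC Pool.Agent.H628R3.RO Pool.Agent.H543R3.PC

theorem zR_le (z : List Bool) : zR z ≤ z.length := by
  have := zU_zR_len z
  omega

theorem zR_inn (z u : List Bool) : zR (inn z u) = zR z := zR_zM _ _ _

theorem w2_acc_agr {B : List Bool → Bool} {z : List Bool} {G G' : GG}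
    (h : Agr (zR z + 1) G G') (w : List Bool) : canAcc B G' z w ↔ canAcc B G z w := by
  unfold canAcc
  refine and_congr_right fun hc => ?_
  exact e1_acc_agr (cA_spec (decA (zK z))).1 w (h.mono (by omega))

theorem w2_acc_agB {B B' : List Bool → Bool} {z : List Bool} {G : GG}
    (h : AgB (zR z) B B') (w : List Bool) : canAcc B' G z w ↔ canAcc B G z w := by
  unfold canAcc
  refine and_congr_right fun hc => ?_
  exact e1_acc_agB (cA_spec (decA (zK z))).1 w (h.mono_e1 hc)

theorem can2_agr {B : List Bool → Bool} {z : List Bool} {G G' : GG} (h : Agr (z.length + 1) G G') :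
    z ∈ can2 B G' ↔ z ∈ can2 B G := by
  refine forall_congr' fun u => imp_congr Iff.rfl (exists_congr fun w => w2_acc_agr ?_ w)
  rw [zR_inn]
  exact h.mono (by have := zR_le z; omega)

theorem can2_agB {B B' : List Bool → Bool} {z : List Bool} {G : GG} (h : AgB z.length B B') :
    z ∈ can2 B' G ↔ z ∈ can2 B G := by
  refine forall_congr' fun u => imp_congr Iff.rfl (exists_congr fun w => w2_acc_agB ?_ w)
  rw [zR_inn]
  exact h.mono_e1 (zR_le z)

theorem cF_spec (M : Alg) : CostF M (cF M) := by
  have h : ∃ c, CostF M c := exists_costF M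
  unfold cF
  rw [dif_pos h]
  exact h.choose_spec

theorem PBad_agr (M : Alg) (u : List Bool) {B : List Bool → Bool} {G G' : GG}
    (h : Agr ((cF M).eval u.length + 1) G G') : PBad M B G' u ↔ PBad M B G u := by
  have h2 := cF_spec M u
  have hout : M.out (mk B G') u = M.out (mk B G) u := (h2.1 B).agr h
  have hlen := h2.2.2 (mk B G)
  unfold PBad
  rw [hout]
  refine exists_congr fun z => and_congr_right fun hz => not_congr (can2_agr (h.mono ?_))
  have := hlen z hz
  omega

theorem PBad_agB (M : Alg) (u : List Bool) {B B' : List Bool → Bool} {G : GG}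
    (h : AgB ((cF M).eval u.length) B B') : PBad M B' G u ↔ PBad M B G u := by
  have h2 := cF_spec M u
  have hout : M.out (mk B' G) u = M.out (mk B G) u := h2.2.1 B B' G h
  have hlen := h2.2.2 (mk B G)
  unfold PBad
  rw [hout]
  exact exists_congr fun z => and_congr_right fun hz => not_congr
    (can2_agB (h.mono_e1 (hlen z hz)))

end Pool.Agent.H543R3.PC2
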