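import Pool.Agent.H543R3.PC2.Defs
import Pool.Agent.H543R3.PC2.W1
import Pool.Agent.H543R3.PC2.W2

/-!
# W9: soundness of a proof system is totality of a search problem
-/

namespace Pool.Agent.H543R3.PC2

open Pool.Agent.NPC Pool.Agent.H628R3.RO Pool.Agent.H543R3.PC

theorem w9_unp {α : Type} [TEnc α] {f : α → List Bool} (hf : NPC.Poly f) :
    NPC.Poly (fun a => unpair (f a)) := NPC.Poly.comp poly_unpair hf

theorem w9_stop : ∃ I : Alg, ∀ (A : Oracle) (x : List Bool), I.out A x = some [] := by
  refine ⟨⟨fun _ => [], H622R2.polyTime_of_poly_list (NPC.Poly.const []), 1⟩, fun A x => ?_⟩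
  unfold Alg.out
  simp only [Polynomial.eval_one]
  rfl

theorem w9_poly_inn {α : Type} [TEnc α] {z u : α → List Bool} (hz : NPC.Poly z)
    (hu : NPC.Poly u) : NPC.Poly (fun a => inn (z a) (u a)) := by
  have h1 : NPC.Poly (fun a => (unpair (z a)).1) := NPC.Poly.fst (w9_unp hz)
  have h2 : NPC.Poly (fun a => (unpair (z a)).2) := NPC.Poly.snd (w9_unp hz)
  have h3 : NPC.Poly (fun a => (unpair (unpair (z a)).2).1) := NPC.Poly.fst (w9_unp h2)
  have h4 : NPC.Poly (fun a => (unpair (unpair (z a)).2).2) := NPC.Poly.snd (w9_unp h2)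
  have h5 : NPC.Poly (fun a => one (unpair (unpair (z a)).2).2.length) :=
    a2_poly_one (UPoly.length h4)
  exact H622R2.poly_pairBits h1 (H622R2.poly_pairBits
    (H622R2.poly_pairBits (NPC.Poly.fst (w9_unp h3)) hu) h5)

/-- Certificates of instances are short. -/
theorem w9_len {B : List Bool → Bool} {G : GG} {z u v : List Bool}
    (h : canAcc B G (inn z u) v) : v.length ≤ z.length := by
  have h1 := h.2.1
  have h2 := (cA_spec (decA (zK (inn z u)))).2 (zU (inn z u)).length
  have h3 := h.1
  have h4 := zR_inn z u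
  have h5 := zR_le z
  omega

section
variable {B : List Bool → Bool} {G : GG} {S : Finset ℕ} {nH : ℕ}

theorem exists_ver (hB : GuideP B) (M : Alg) : ∃ (V : Alg) (p : Polynomial ℕ),
    (∀ G', (∀ y, ¬ CBad ⟨.tfnp, V, M, p, 0⟩ B G' y) → ∀ w, ¬ PBad M B G' w) ∧
    ∀ G', (∀ w, ∃ z, M.out (mk B G') w = some z) → (∀ w, ¬ PBad M B G' w) →
      ∀ y, ¬ CBad ⟨.tfnp, V, M, p, 0⟩ B G' y := by
  obtain ⟨N, hN⟩ := hB Task.cV
  obtain ⟨I, hI⟩ := w9_stop
  have hx : NPC.Poly (fun p : List Bool × List Bool => (unpair p.1).1) :=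
    NPC.Poly.fst (w9_unp (NPC.Poly.fst NPC.Poly.id))
  have hφ1 : NPC.Poly (fun p : List Bool × List Bool => (unpair (unpair p.1).1).1) :=
    NPC.Poly.fst (w9_unp hx)
  have hu1 : NPC.Poly (fun p : List Bool × List Bool => (unpair (unpair p.1).1).2) :=
    NPC.Poly.snd (w9_unp hx)
  have hv1 : NPC.Poly (fun p : List Bool × List Bool => (unpair p.1).2) :=
    NPC.Poly.snd (w9_unp (NPC.Poly.fst NPC.Poly.id))
  obtain ⟨M', hM'⟩ := seq_out I M (φ := fun p => (unpair (unpair p.1).1).1)
    (ψ := fun p => p.2.2) hφ1 (NPC.Poly.snd (NPC.Poly.snd NPC.Poly.id))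
  have hφ2 : NPC.Poly (fun p : List Bool × List Bool =>
      pairBits (inn p.2 (unpair (unpair p.1).1).2) (unpair p.1).2) :=
    H622R2.poly_pairBits (w9_poly_inn (NPC.Poly.snd NPC.Poly.id) hu1) hv1
  have hψ2 : NPC.Poly (fun p : List Bool × List Bool × List Bool =>
      if (unpair (unpair p.1).1).2.length ≤ zS p.2.1 then p.2.2 else [true]) := by
    refine NPC.Poly.ite (NPC.Poly.decide_le ?_ ?_) (NPC.Poly.snd (NPC.Poly.snd NPC.Poly.id))
      (NPC.Poly.const _)
    · exact NPC.Poly.length (NPC.Poly.snd (w9_unp (NPC.Poly.fst (w9_unp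
        (NPC.Poly.fst NPC.Poly.id)))))
    · exact NPC.Poly.length (NPC.Poly.snd (w9_unp (NPC.Poly.fst (w9_unp (NPC.Poly.snd (w9_unp
        (NPC.Poly.fst (NPC.Poly.snd NPC.Poly.id))))))))
  obtain ⟨V, hV⟩ := seq_out M' N
    (φ := fun p => pairBits (inn p.2 (unpair (unpair p.1).1).2) (unpair p.1).2)
    (ψ := fun p => if (unpair (unpair p.1).1).2.length ≤ zS p.2.1 then p.2.2 else [true])
    hφ2 hψ2
  have key : ∀ (G' : GG) (y v z : List Bool), M.out (mk B G') (unpair y).1 = some z →
      V.out (mk B G') (pairBits y v) = some (if (unpair y).2.length ≤ zS z then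
        semC B (pairBits (inn z (unpair y).2) v) G' else [true]) := by
    intro G' y v z hz
    have h1 : M'.out (mk B G') (pairBits y v) = some z := by
      refine hM' (mk B G') (pairBits y v) [] z (hI _ _) ?_
      simp only [unpair_pairBits]
      exact hz
    have h2 := hV (mk B G') (pairBits y v) z (sem Task.cV B _ G') h1 (hN G' _)
    simp only [unpair_pairBits, sem] at h2
    exact h2
  refine ⟨V, cF M, fun G' hy w hbad => ?_, fun G' htot hgood y hbad => ?_⟩
  · obtain ⟨z, hz, hz2⟩ := hbad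
    have h1 : ∃ u : List Bool, u.length ≤ zS z ∧ inn z u ∉ canNP B G' := by
      by_contra hcon
      push Not at hcon
      exact hz2 hcon
    obtain ⟨u, hu, hu2⟩ := h1
    have h2 : Wt V (cF M) (mk B G') (pairBits w u) := by
      by_contra hcon
      exact hy (pairBits w u) hcon
    obtain ⟨v, hv, hv2⟩ := h2
    have h3 := key G' (pairBits w u) v z (by rw [unpair_pairBits]; exact hz)
    rw [unpair_pairBits] at h3
    try dsimp only at h3
    rw [if_pos hu] at h3
    rw [hv2] at h3
    have h4 : semC B (pairBits (inn z u) v) G' = [true] := (Option.some.inj h3).symm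
    unfold semC at h4
    rw [unpair_pairBits] at h4
    by_cases hc : canAcc B G' (inn z u) v
    · exact hu2 ⟨v, hc⟩
    · try dsimp only at h4
      rw [if_neg hc] at h4
      exact absurd h4 (by simp)
  · have hbad' : ¬ Wt V (cF M) (mk B G') y := hbad
    obtain ⟨z, hz⟩ := htot (unpair y).1
    have hzc : z ∈ can2 B G' := by
      by_contra hcon
      exact hgood (unpair y).1 ⟨z, hz, hcon⟩
    apply hbad'
    by_cases hu : (unpair y).2.length ≤ zS z
    · obtain ⟨v, hv⟩ := hzc (unpair y).2 hu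
      refine ⟨v, ?_, ?_⟩
      · have h1 := w9_len hv
        have h2 := (cF_spec M (unpair y).1).2.2 (mk B G') z hz
        have h3 : (unpair y).1.length ≤ y.length := by
          have := unpair_len y
          omega
        have h4 := eval_mono (cF M) h3
        omega
      · rw [key G' y v z hz, if_pos hu]
        unfold semC
        rw [unpair_pairBits]
        try dsimp only
        rw [if_pos hv]
    · refine ⟨[], by simp, ?_⟩
      rw [key G' y [] z hz, if_neg hu]

end

end Pool.Agent.H543R3.PC2
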