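import Pool.Agent.H543R3.PC.P0
import Pool.Agent.H543R3.PC2.Defs
import Pool.Agent.H543R3.PC2.W1
import Pool.Agent.H543R3.PC2.W2
import Pool.Agent.H543R3.PC2.W9

/-!
# W10: soundness and completeness of the guard
-/

namespace Pool.Agent.H543R3.PC2

open Pool.Agent.NPC Pool.Agent.H628R3.RO Pool.Agent.H543R3.PC

section
variable {B : List Bool → Bool} {G : GG} {S : Finset ℕ} {nH : ℕ}

theorem okW_sound (h : PosSit B G S nH) {z : List Bool} (hz : okW S nH B G z) :
    ¬ PBad (req (zE z)).M₁ B G (zU z) := by
  have hL : Leg (zE z) S (zm z) (tab (zF z)) (tr (max (wT z + 1) (zm z)) G) := by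
    refine ⟨?_, ?_, ?_, ?_⟩
    · intro j y hy
      rw [p0_tr_eq (lt_of_lt_of_le hy (le_max_right _ _))]
      exact hz.agr j y hy
    · intro j n hn
      by_cases hM : j + n < max (wT z + 1) (zm z)
      · rcases h.inv j n with h1 | h1
        · exact Or.inl ((p0_act hM).2 h1)
        · exact Or.inr (p0_inact h1)
      · exact Or.inr (p0_inact_far hM)
    · intro j hj n hn
      by_cases hM : j + n < max (wT z + 1) (zm z)
      · rcases h.leg j hj n (hz.low.trans hn) with h1 | h1
        · exact Or.inl (p0_legal hM h1)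
        · exact Or.inr (p0_inact h1)
      · exact Or.inr (p0_inact_far hM)
    · intro j hj hjS n hn
      by_cases hM : j + n < max (wT z + 1) (zm z)
      · have hT : j + n ≤ wT z := by
          rcases lt_max_iff.1 hM with h1 | h1
          · omega
          · omega
        rcases h.inv j n with h1 | h1
        · exact absurd h1 (hz.ina j hj hjS n hn hT)
        · exact p0_inact h1
      · exact p0_inact_far hM
  have hA : Agr ((cF (req (zE z)).M₁).eval (zU z).length + 1) G
      (tr (max (wT z + 1) (zm z)) G) :=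
    fun j y hy => p0_tr_eq (lt_of_lt_of_le hy (le_max_left _ _))
  rw [← PBad_agr (req (zE z)).M₁ (zU z) hA]
  exact hz.rob _ hL

theorem okW_complete (hB : GuideP B) (h : PosSit B G S nH) (M : Alg)
    (h1 : ∀ w, ∃ z, M.out (mk B G) w = some z) (h2 : ∀ w, ¬ PBad M B G w) :
    ∃ ζ : List Bool → List Bool, Poly ζ ∧
      ∀ u, okW S nH B G (ζ u) ∧ (req (zE (ζ u))).M₁ = M ∧ zU (ζ u) = u := by
  obtain ⟨V, p, hV1, hV2⟩ := exists_ver hB M
  obtain ⟨e, he, her⟩ := req_spec ⟨.tfnp, V, M, p, 0⟩ (S.sup id + 1)
  have hS : ∀ i ∈ S, i < e := by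
    intro i hi
    have := Finset.le_sup (f := id) hi
    simp only [id] at this
    omega
  obtain ⟨m, hm, hL, hrob⟩ := h.rob e hS (fun u => by rw [her]; exact hV2 G h1 h2 u)
  have hM1 : (req e).M₁ = M := by rw [her]
  obtain ⟨F, hF⟩ := exists_tab m G
  obtain ⟨k, hk⟩ := decZ_surjective (e, m, F)
  let R : Polynomial ℕ := cF M + Polynomial.C e * (cF M + 1) + Polynomial.C (2 ^ (m + 2))
  refine ⟨fun u => zM k u (R.eval u.length), poly_zM k R, fun u => ?_⟩
  have hK := zK_zM k u (R.eval u.length)
  have hU := zU_zM k u (R.eval u.length)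
  have hR := zR_zM k u (R.eval u.length)
  have hE : zE (zM k u (R.eval u.length)) = e := by
    unfold zE
    rw [hK, hk]
  have hmm : zm (zM k u (R.eval u.length)) = m := by
    unfold zm
    rw [hK, hk]
  have hFF : zF (zM k u (R.eval u.length)) = F := by
    unfold zF
    rw [hK, hk]
  have hT : wT (zM k u (R.eval u.length)) = (cF M).eval u.length := by
    unfold wT
    rw [hE, hU, hM1]
  refine ⟨?_, ?_, hU⟩
  · refine ⟨?_, ?_, ?_, ?_, ?_, ?_⟩
    · show ∀ i ∈ S, i < zE (zM k u (R.eval u.length))
      rw [hE]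
      exact hS
    · show nH ≤ zm (zM k u (R.eval u.length))
      rw [hmm]
      exact hm
    · show wT (zM k u (R.eval u.length)) + zE (zM k u (R.eval u.length)) *
        (wT (zM k u (R.eval u.length)) + 1) + 2 ^ (zm (zM k u (R.eval u.length)) + 2) ≤
          zR (zM k u (R.eval u.length))
      rw [hT, hE, hmm, hR]
      simp only [R, Polynomial.eval_add, Polynomial.eval_mul, Polynomial.eval_C,
        Polynomial.eval_one]
      exact le_refl _
    · show ∀ G', Leg (zE (zM k u (R.eval u.length))) S (zm (zM k u (R.eval u.length)))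
        (tab (zF (zM k u (R.eval u.length)))) G' →
          ¬ PBad (req (zE (zM k u (R.eval u.length)))).M₁ B G' (zU (zM k u (R.eval u.length)))
      rw [hE, hmm, hFF, hU, hM1]
      intro G' hG'
      refine hV1 G' (fun y => ?_) u
      have h3 := hrob G' ⟨fun j y hy => (hG'.agr j y hy).trans (hF j y hy).symm, hG'.inv,
        hG'.leg, hG'.ina⟩ y
      rw [her] at h3
      exact h3
    · show Agr (zm (zM k u (R.eval u.length))) (tab (zF (zM k u (R.eval u.length)))) G
      rw [hmm, hFF]
      exact hF
    · show ∀ j, j < zE (zM k u (R.eval u.length)) → j ∉ S → ∀ n,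
        zm (zM k u (R.eval u.length)) ≤ j + n → j + n ≤ wT (zM k u (R.eval u.length)) →
          ¬ Act G j n
      rw [hE, hmm]
      intro j hj hjS n hn _ hact
      have h1 := hL.ina j hj hjS n hn (zer n) (p0_zer_len n)
      unfold Act at hact
      rw [hact] at h1
      exact Bool.noConfusion h1
  · show (req (zE (zM k u (R.eval u.length)))).M₁ = M
    rw [hE, hM1]

end

end Pool.Agent.H543R3.PC2
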