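import Pool.Agent.H543R3.PC.P7
import Pool.Agent.H543R3.PC2.Defs
import Pool.Agent.H543R3.PC2.W2

/-!
# W7: the canonical set is complete for the second level
-/

namespace Pool.Agent.H543R3.PC2

open Pool.Agent.NPC Pool.Agent.H628R3.RO Pool.Agent.H543R3.PC

section
variable {B : List Bool → Bool} {G : GG}

theorem w7_zS_le (z : List Bool) : zS z ≤ z.length := by
  have h1 := unpair_len (zU z)
  have h2 := zU_zR_len z
  unfold zS
  omega

theorem w7_acc_len {z w : List Bool} (h : canAcc B G z w) : w.length ≤ zR z := by
  have h1 := h.2.1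
  have h2 := (cA_spec (decA (zK z))).2 (zU z).length
  have h3 := h.1
  omega

theorem w7_poly_zU : Poly zU :=
  Poly.fst (Poly.comp poly_unpair (Poly.snd poly_unpair))

theorem w7_poly_inn {α : Type} [TEnc α] {z u : α → List Bool} (hz : Poly z) (hu : Poly u) :
    Poly (fun a => inn (z a) (u a)) := by
  unfold inn zM zK zR
  refine H622R2.poly_pairBits (Poly.fst (Poly.comp poly_unpair hz)) (H622R2.poly_pairBits
    (H622R2.poly_pairBits (Poly.fst (Poly.comp poly_unpair (Poly.comp w7_poly_zU hz))) hu)
    (a2_poly_one (UPoly.length ?_)))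
  exact Poly.snd (Poly.comp poly_unpair (Poly.snd (Poly.comp poly_unpair hz)))

theorem can2_isPi2 (hB : GuideP B) : IsPi2 (mk B G) (can2 B G) := by
  obtain ⟨M, hM⟩ := hB Task.cV
  have hC : IsFP (mk B G) (fun x => semC B x G) := ⟨M, fun x => hM G x⟩
  have hid : IsFP (mk B G) (fun x : List Bool => x) := IsFP.of_poly Poly.id
  have hz : Poly (fun y : List Bool => (unpair y).1) := Poly.fst poly_unpair
  have hu : Poly (fun y : List Bool => (unpair (unpair y).2).1) :=
    Poly.fst (Poly.comp poly_unpair (Poly.snd poly_unpair))
  have hv : Poly (fun y : List Bool => (unpair (unpair y).2).2) :=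
    Poly.snd (Poly.comp poly_unpair (Poly.snd poly_unpair))
  have hV : IsFP (mk B G) (fun y : List Bool =>
      if (unpair (unpair y).2).1.length ≤ zS (unpair y).1 then
        semC B (pairBits (inn (unpair y).1 (unpair (unpair y).2).1) (unpair (unpair y).2).2) G
      else [true]) := by
    refine IsFP.seq (φ := fun p => pairBits (inn (unpair p.1).1 (unpair (unpair p.1).2).1)
      (unpair (unpair p.1).2).2) (ψ := fun p =>
      if (unpair (unpair p.1).2).1.length ≤ zS (unpair p.1).1 then p.2.2 else [true])
      hid hC ?_ ?_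
    · have hz1 : Poly (fun q : List Bool × List Bool => (unpair q.1).1) :=
        Poly.comp (g := fun y : List Bool => (unpair y).1) hz (Poly.fst Poly.id)
      have hu1 : Poly (fun q : List Bool × List Bool => (unpair (unpair q.1).2).1) :=
        Poly.comp (g := fun y : List Bool => (unpair (unpair y).2).1) hu (Poly.fst Poly.id)
      have hv1 : Poly (fun q : List Bool × List Bool => (unpair (unpair q.1).2).2) :=
        Poly.comp (g := fun y : List Bool => (unpair (unpair y).2).2) hv (Poly.fst Poly.id)
      exact H622R2.poly_pairBits (w7_poly_inn hz1 hu1) hv1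
    · have hu1 : Poly (fun q : List Bool × List Bool × List Bool => (unpair (unpair q.1).2).1) :=
        Poly.comp (g := fun y : List Bool => (unpair (unpair y).2).1) hu (Poly.fst Poly.id)
      refine Poly.ite (Poly.decide_le (Poly.length hu1) ?_)
        (Poly.snd (Poly.snd Poly.id)) (NPC.Poly.const _)
      unfold zS
      exact Poly.length (Poly.snd (Poly.comp poly_unpair (Poly.comp w7_poly_zU
        (Poly.comp (g := fun y : List Bool => (unpair y).1) hz (Poly.fst Poly.id)))))
  refine ⟨_, Polynomial.X, hV, fun z => ?_⟩
  simp only [Polynomial.eval_X, unpair_pairBits]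
  constructor
  · intro h u _
    by_cases hu : u.length ≤ zS z
    · obtain ⟨w, hw⟩ := h u hu
      refine ⟨w, ?_, ?_⟩
      · have h1 := w7_acc_len hw
        rw [zR_inn] at h1
        exact h1.trans (zR_le z)
      · rw [if_pos hu]
        exact (p7_semC _ _).2 hw
    · exact ⟨[], Nat.zero_le _, by rw [if_neg hu]⟩
  · intro h u hu
    obtain ⟨w, _, hw⟩ := h u (hu.trans (w7_zS_le z))
    rw [if_pos hu] at hw
    exact ⟨w, (p7_semC _ _).1 hw⟩

theorem w7_mem (k : List Bool) (M : Alg) (p : Polynomial ℕ) (hk : decA k = (M, p))
    (x t : List Bool) (r : ℕ) :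
    zM k (pairBits x t) r ∈ can2 B G ↔ ∀ u : List Bool, u.length ≤ t.length →
      ∃ w, (cA (M, p)).eval (pairBits x u).length ≤ r ∧ Acc M p (mk B G) (pairBits x u) w := by
  have h1 : zS (zM k (pairBits x t) r) = t.length := by
    unfold zS
    rw [zU_zM, unpair_pairBits]
  have h2 : ∀ u, inn (zM k (pairBits x t) r) u = zM k (pairBits x u) r := by
    intro u
    unfold inn
    rw [zK_zM, zU_zM, zR_zM, unpair_pairBits]
  unfold can2
  rw [Set.mem_ofPred_eq, h1]
  refine forall_congr' fun u => imp_congr Iff.rfl ?_
  rw [h2]
  unfold canNP canAcc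
  simp only [Set.mem_ofPred_eq, zK_zM, zU_zM, zR_zM, hk]

theorem can2_hard : Pi2Hard (mk B G) (can2 B G) := by
  intro L hL
  obtain ⟨V, p, hV, hVL⟩ := hL
  have hx : Poly (fun y : List Bool => (unpair (unpair y).1).1) :=
    Poly.fst (Poly.comp poly_unpair (Poly.fst poly_unpair))
  have hu : Poly (fun y : List Bool => (unpair (unpair y).1).2) :=
    Poly.snd (Poly.comp poly_unpair (Poly.fst poly_unpair))
  have hv : Poly (fun y : List Bool => (unpair y).2) := Poly.snd poly_unpair
  have hid : IsFP (mk B G) (fun x : List Bool => x) := IsFP.of_poly Poly.id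
  have hV1 : IsFP (mk B G) (fun y : List Bool =>
      if (unpair y).2.length ≤ p.eval (unpair (unpair y).1).1.length then
        V (pairBits (unpair (unpair y).1).1 (pairBits (unpair (unpair y).1).2 (unpair y).2))
      else []) := by
    refine IsFP.seq (φ := fun q => pairBits (unpair (unpair q.1).1).1
      (pairBits (unpair (unpair q.1).1).2 (unpair q.1).2)) (ψ := fun q =>
      if (unpair q.1).2.length ≤ p.eval (unpair (unpair q.1).1).1.length then q.2.2 else [])
      hid hV ?_ ?_
    · have hx1 : Poly (fun q : List Bool × List Bool => (unpair (unpair q.1).1).1) :=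
        Poly.comp (g := fun y : List Bool => (unpair (unpair y).1).1) hx (Poly.fst Poly.id)
      have hu1 : Poly (fun q : List Bool × List Bool => (unpair (unpair q.1).1).2) :=
        Poly.comp (g := fun y : List Bool => (unpair (unpair y).1).2) hu (Poly.fst Poly.id)
      have hv1 : Poly (fun q : List Bool × List Bool => (unpair q.1).2) :=
        Poly.comp (g := fun y : List Bool => (unpair y).2) hv (Poly.fst Poly.id)
      exact H622R2.poly_pairBits hx1 (H622R2.poly_pairBits hu1 hv1)
    · have hx1 : Poly (fun q : List Bool × List Bool × List Bool =>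
          (unpair (unpair q.1).1).1) :=
        Poly.comp (g := fun y : List Bool => (unpair (unpair y).1).1) hx (Poly.fst Poly.id)
      have hv1 : Poly (fun q : List Bool × List Bool × List Bool => (unpair q.1).2) :=
        Poly.comp (g := fun y : List Bool => (unpair y).2) hv (Poly.fst Poly.id)
      refine Poly.ite (Poly.decide_le (Poly.length hv1) ?_)
        (Poly.snd (Poly.snd Poly.id)) (NPC.Poly.const _)
      exact UPoly.toPoly (UPoly.eval (UPoly.length hx1) p)
  obtain ⟨M, hM⟩ := hV1
  obtain ⟨k, hk⟩ := decA_surjective (M, p)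
  refine ⟨fun x => zM k (pairBits x (one (p.eval x.length)))
    ((cA (M, p)).eval (pairBits x (one (p.eval x.length))).length), ?_, fun x => ?_⟩
  · have hg : Poly (fun x : List Bool => pairBits x (one (p.eval x.length))) :=
      H622R2.poly_pairBits Poly.id (a2_poly_one (UPoly.eval (UPoly.length Poly.id) p))
    have hzM := poly_zM k (cA (M, p))
    exact IsFP.of_poly (Poly.comp (g := fun u => zM k u ((cA (M, p)).eval u.length)) hzM hg)
  · rw [w7_mem k M p hk, hVL x]
    have hone : (one (p.eval x.length)).length = p.eval x.length := by simp [one]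
    rw [hone]
    refine forall_congr' fun u => imp_congr_right fun hu => exists_congr fun w => ?_
    have h1 : (cA (M, p)).eval (pairBits x u).length ≤
        (cA (M, p)).eval (pairBits x (one (p.eval x.length))).length := by
      apply eval_mono
      rw [length_pairBits, length_pairBits, hone]
      omega
    have h2 : x.length ≤ (pairBits x u).length := by
      rw [length_pairBits]
      omega
    have h3 := eval_mono p h2
    unfold PC.Acc
    rw [hM, Option.some_inj]
    simp only [unpair_pairBits]
    constructor
    · rintro ⟨hw, hVw⟩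
      refine ⟨h1, hw.trans h3, ?_⟩
      rw [if_pos hw]
      exact hVw
    · rintro ⟨_, _, hw⟩
      by_cases hw' : w.length ≤ p.eval x.length
      · rw [if_pos hw'] at hw
        exact ⟨hw', hw⟩
      · rw [if_neg hw'] at hw
        simp at hw

theorem exists_mem_can2 : ∃ z, z ∈ can2 B G := by
  obtain ⟨k, hk⟩ := decA_surjective (Alg.mk (fun _ => true :: [true]) (p7_const _) 1, 0)
  refine ⟨_, (w7_mem k _ _ hk [] []
    ((cA (Alg.mk (fun _ => true :: [true]) (p7_const _) 1, 0)).eval
      (pairBits [] []).length)).2 fun u hu => ?_⟩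
  have : u = [] := by
    rw [← List.length_eq_zero_iff]
    simpa using hu
  subst this
  refine ⟨[], le_rfl, ?_, p7_out [true] _ _⟩
  simp

end

end Pool.Agent.H543R3.PC2
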