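import Pool.Agent.H543R3.PC2.Defs
import Pool.Agent.H543R3.PC2.W1
import Pool.Agent.H543R3.PC2.W2

/-!
# Task W8: brute force is a proof system
-/

namespace Pool.Agent.H543R3.PC2

open Pool.Agent.NPC Pool.Agent.H628R3.RO Pool.Agent.H543R3.PC

section
variable {B : List Bool → Bool} {G : GG}

theorem bruteW (hB : GuideW B) {d : List Bool} (hd : d ∈ can2 B G) :
    ∃ P, IsProofSystem (mk B G) (can2 B G) P := by
  obtain ⟨M, hM⟩ := hB.2.2 d
  refine ⟨fun x => semBW d B x G, ⟨M, fun x => hM G x⟩, ?_⟩
  ext z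
  constructor
  · rintro ⟨x, rfl⟩
    show semBW d B x G ∈ can2 B G
    unfold semBW
    split_ifs with h
    · exact h.2
    · exact hd
  · intro hz
    refine ⟨pairBits z (one (2 ^ (z.length + 2))), ?_⟩
    show semBW d B (pairBits z (one (2 ^ (z.length + 2)))) G = z
    unfold semBW
    rw [unpair_pairBits]
    refine if_pos ⟨?_, hz⟩
    show 2 ^ (z.length + 2) ≤ (one (2 ^ (z.length + 2))).length
    unfold one
    rw [List.length_replicate]

end

end Pool.Agent.H543R3.PC2
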