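import Pool.Agent.H543R3.PC2.Defs
import Pool.Agent.H543R3.PC2.W1
import Pool.Agent.H543R3.PC2.W2
import Pool.Agent.H543R3.PC.P0
import Pool.Agent.H543R3.PC2.W7
import Pool.Agent.H543R3.PC2.W8
import Pool.Agent.H543R3.PC2.W10

/-!
# W11: p-optimal proof systems for the second level exist in the positive situation (helper228)
-/

namespace Pool.Agent.H543R3.PC2

open Pool.Agent.NPC Pool.Agent.H628R3.RO Pool.Agent.H543R3.PC

section
variable {B : List Bool → Bool} {G : GG} {S : Finset ℕ} {nH : ℕ}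

theorem w11_isFP (hB : GuideW B) (d : List Bool) :
    IsFP (mk B G) (fun x => semW S nH d B x G) := by
  obtain ⟨M, hM⟩ := hB.2.1 S nH d
  exact ⟨M, fun x => hM G x⟩

/-- The guarded proof system simulates every proof system. -/
theorem w11_sim (hB : GuideW B) (h : PosSit B G S nH) {d : List Bool}
    {Q : List Bool → List Bool} (hQ : IsProofSystem (mk B G) (can2 B G) Q) :
    ∃ g, IsFP (mk B G) g ∧ ∀ w, semW S nH d B (g w) G = Q w := by
  obtain ⟨M, hM⟩ := hQ.1
  obtain ⟨ζ, hζ, hs⟩ := okW_complete hB.1 h M (fun w => ⟨Q w, hM w⟩) (by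
    rintro w ⟨z, hz, hz'⟩
    have h1 : z = Q w := by
      have h2 := (hM w).symm.trans hz
      exact (Option.some.inj h2).symm
    have h3 : Q w ∈ can2 B G := hQ.2 ▸ Set.mem_range_self w
    exact hz' (h1 ▸ h3))
  refine ⟨ζ, IsFP.of_poly hζ, fun w => ?_⟩
  obtain ⟨h1, h2, h3⟩ := hs w
  unfold semW
  rw [if_pos h1, h2, h3, hM w]
  rfl

theorem pos_popt2 (hB : GuideW B) (h : PosSit B G S nH) : HasPOpt2 (mk B G) := by
  obtain ⟨d, hd⟩ := exists_mem_can2 (B := B) (G := G)
  refine ⟨can2 B G, can2_isPi2 hB.1, can2_hard, fun x => semW S nH d B x G,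
    ⟨w11_isFP hB d, ?_⟩, fun Q hQ => w11_sim hB h hQ⟩
  apply Set.Subset.antisymm
  · rintro _ ⟨x, rfl⟩
    show semW S nH d B x G ∈ can2 B G
    unfold semW
    by_cases hx : okW S nH B G x
    · rw [if_pos hx]
      have hc := okW_sound h hx
      cases ho : (req (zE x)).M₁.out (mk B G) (zU x) with
      | none => exact hd
      | some z =>
        by_contra hz
        exact hc ⟨z, ho, hz⟩
    · rw [if_neg hx]
      exact hd
  · obtain ⟨Q, hQ⟩ := bruteW hB hd
    obtain ⟨g, -, hg⟩ := w11_sim (d := d) hB h hQ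
    intro z hz
    rw [← hQ.2] at hz
    obtain ⟨w, rfl⟩ := hz
    exact ⟨g w, hg w⟩

end

end Pool.Agent.H543R3.PC2
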