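import Pool.Agent.H543R3.PC.A2
import Pool.Agent.H543R3.PC.N0
import Pool.Agent.H543R3.PC.N2
import Pool.Agent.H543R3.PC.DefsP
import Pool.Agent.H543R3.PC.N8
import Pool.Agent.H543R3.PC.M4
import Pool.Agent.H543R3.PC2.Defs

/-!
# W12: no optimal proof systems for the second level, if infinitely many columns are infinite
(helper228)
-/

namespace Pool.Agent.H543R3.PC2

open Pool.Agent.NPC Pool.Agent.H628R3.RO Pool.Agent.H543R3.PC

theorem w12_pi2_of_coNP {A : Oracle} {L : Set (List Bool)} (h : IsCoNP A L) : IsPi2 A L := by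
  obtain ⟨V, p, hV, hL⟩ := h
  refine ⟨fun y => if V (pairBits (unpair y).1 (unpair (unpair y).2).1) = [true] then []
    else [true], p, ?_, fun x => ?_⟩
  · have h1 : Poly (fun q : List Bool × List Bool => (unpair q.1).1) :=
      Poly.fst (Poly.comp poly_unpair (Poly.fst Poly.id))
    have h2 : Poly (fun q : List Bool × List Bool => (unpair (unpair q.1).2).1) :=
      Poly.fst (Poly.comp poly_unpair (Poly.snd (Poly.comp poly_unpair (Poly.fst Poly.id))))
    exact IsFP.seq (F := fun _ => []) (G := V)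
      (φ := fun q => pairBits (unpair q.1).1 (unpair (unpair q.1).2).1)
      (ψ := fun q => if q.2.2 = [true] then [] else [true])
      (IsFP.of_poly (NPC.Poly.const [])) hV (H622R2.poly_pairBits h1 h2)
      (Poly.ite (Poly.decide_eq (Poly.snd (Poly.snd Poly.id)) (NPC.Poly.const _))
        (NPC.Poly.const _) (NPC.Poly.const _))
  · have h3 : x ∈ L ↔ ¬ ∃ w : List Bool, w.length ≤ p.eval x.length ∧
        V (pairBits x w) = [true] := by
      rw [← hL x]
      simp
    rw [h3]
    simp only [unpair_pairBits]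
    constructor
    · intro h4 u hu
      refine ⟨[], by simp, ?_⟩
      rw [if_neg (fun h5 => h4 ⟨u, hu, h5⟩)]
    · rintro h4 ⟨w, hw, h5⟩
      obtain ⟨v, -, h6⟩ := h4 w hw
      rw [if_pos h5] at h6
      exact absurd h6 (by simp)

section
variable {B : List Bool → Bool} {G : GG}

theorem w12_neg (hB : GuideP B) {H : Set ℕ} (h : NegSit B G H) {L : Set (List Bool)}
    (hL2 : CoNPHardRel (mk B G) L) : ¬ ∃ P, IsOptimal (mk B G) L P := by
  rintro ⟨P, hP⟩
  have hne : (setT G).Nonempty := by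
    refine ⟨[], ?_⟩
    rintro ⟨j, n, h1, -⟩
    have h2 := congrArg List.length h1
    rw [uC_len, List.length_nil] at h2
    omega
  obtain ⟨P₀, hP₀⟩ := IsOptimal.transfer hP (hL2 (setT G) (setT_isCoNP hB)) hne
  obtain ⟨M, hM⟩ := hP₀.1.1
  have hr : ∀ w, P₀ w ∈ setT G := by
    intro w
    rw [← hP₀.1.2]
    exact ⟨w, rfl⟩
  obtain ⟨e, -, he⟩ := req_spec ⟨.nT, M, M, 0, 0⟩ 0
  have hbad : ∀ u, ¬ CBad (req e) B G u := by
    intro u
    rw [he]
    rintro ⟨z, hz1, hz2⟩
    have h1 : M.out (mk B G) u = some z := hz1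
    rw [hM, Option.some.injEq] at h1
    rw [← h1] at hz2
    exact hz2 (hr u)
  obtain ⟨m, S, hS, hleg, hrob⟩ := h.rob e hbad
  obtain ⟨j, hj, hej⟩ := h.inf.exists_gt e
  obtain ⟨N, hN⟩ := h.leg j
  obtain ⟨q, hq⟩ := hP₀.2 (m4Q j N P₀) (m4Q_isProofSystem hP₀.1 hN)
  obtain ⟨N₀, hN₀⟩ := comb_nT (req e) (by rw [he]) (q.comp (Polynomial.X + 1))
  obtain ⟨n, hn, hln⟩ := h.act j hj (max N₀ (max N m))
  have hn1 : N₀ ≤ n := (le_max_left _ _).trans hn
  have hn2 : N ≤ n := (le_max_left _ _).trans ((le_max_right _ _).trans hn)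
  have hn3 : m ≤ n := (le_max_right _ _).trans ((le_max_right _ _).trans hn)
  obtain ⟨v, hv, hvl⟩ := hq (true :: one n)
  have h1 : m4Q j N P₀ (true :: one n) = uC j n := by
    unfold m4Q
    rw [if_pos (by simp), List.tail_cons, one, List.length_replicate, if_pos hn2]
  have h2 : v.length ≤ (q.comp (Polynomial.X + 1)).eval n := by
    rw [List.length_cons, one, List.length_replicate] at hvl
    simpa only [Polynomial.eval_comp, Polynomial.eval_add, Polynomial.eval_X,
      Polynomial.eval_one] using hvl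
  refine hN₀ n hn1 B G j hln (fun C u => hrob _ (leg_put' hS hleg hn3 hej.le C) u) v h2 ?_
  rw [he, ← h1, ← hv]
  exact hM v

theorem neg_opt2 (hB : GuideP B) {H : Set ℕ} (h : NegSit B G H) : ¬ HasOpt2 (mk B G) := by
  rintro ⟨L, -, hL2, hP⟩
  exact w12_neg hB h (fun L' hL' => hL2 L' (w12_pi2_of_coNP hL')) hP

end

end Pool.Agent.H543R3.PC2
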