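import Pool.Agent.H543R3.PC2.Defs
import Pool.Agent.H556R2.Sigma04Defs
import Pool.Agent.H556R2.Borel
import Pool.Agent.H543R3.PC.U0
import Pool.Agent.H543R3.PC.U1
import Pool.Agent.H543R3.PC.U2

/-!
# W13: the upper bound for optimal proof systems of sets in the second level
-/

namespace Pool.Agent.H543R3.PC2

open Pool.Agent.NPC Pool.Agent.H628R3 Pool.Agent.H628R3.RO Pool.Agent.H543R3.PC
open TopologicalSpace Topology
open H556R2 (IsSigma03 IsPi03 IsSigma04 Sigma04Complete)

/-- The condition in the second level given by the algorithm `M` and the length bound `p`. -/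
def T2 (M : Alg) (p : Polynomial ℕ) (A : RO.Oracle) (x : List Bool) : Prop :=
  ∀ u : List Bool, u.length ≤ p.eval x.length →
    ∃ v : List Bool, v.length ≤ p.eval x.length ∧
      M.out A (pairBits x (pairBits u v)) = some [true]

theorem isPi2_iff {A : RO.Oracle} {L : Set (List Bool)} :
    IsPi2 A L ↔ ∃ (M : Alg) (p : Polynomial ℕ), (∀ x, (M.out A x).isSome = true) ∧
      ∀ x, x ∈ L ↔ T2 M p A x := by
  constructor
  · rintro ⟨V, p, ⟨M, hM⟩, h⟩
    refine ⟨M, p, fun x => by rw [hM x]; rfl, fun x => (h x).trans ?_⟩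
    refine forall_congr' fun u => forall_congr' fun _ => exists_congr fun v =>
      and_congr_right fun _ => ?_
    rw [hM]
    simp
  · rintro ⟨M, p, hM, h⟩
    refine ⟨fun x => (M.out A x).getD [], p, ⟨M, fun x => u2_getD (hM x)⟩,
      fun x => (h x).trans ?_⟩
    exact forall_congr' fun u => forall_congr' fun _ => exists_congr fun v =>
      and_congr_right fun _ => (u2_eq (hM _) _).symm

theorem lc_t2 (M : Alg) (p : Polynomial ℕ) (x : List Bool) : Lc (fun A => T2 M p A x) := by
  have hf : {w : List Bool | w.length ≤ p.eval x.length}.Finite := List.finite_length_le Bool _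
  have h := (Lc.existsFin {w : List Bool | w.length ≤ p.eval x.length} hf
    (P := fun u A => ¬ ∃ v ∈ {w : List Bool | w.length ≤ p.eval x.length},
      M.out A (pairBits x (pairBits u v)) = some [true])
    (fun u => (Lc.existsFin _ hf fun v => Lc.out M _ _).not)).not
  have e : (fun A => T2 M p A x) = fun A => ¬ ∃ u ∈ {w : List Bool | w.length ≤ p.eval x.length},
      ¬ ∃ v ∈ {w : List Bool | w.length ≤ p.eval x.length},
        M.out A (pairBits x (pairBits u v)) = some [true] := by
    funext A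
    refine propext ⟨fun hT => ?_, fun hT u hu => ?_⟩
    · rintro ⟨u, hu, hn⟩
      exact hn (hT u hu)
    · by_contra hn
      exact hT ⟨u, hu, hn⟩
  rw [e]
  exact h

/-- the condition on the codes of the set and the proof system -/
private def w13C (i : Alg × Polynomial ℕ × Alg) (x y : List Bool) (A : RO.Oracle) : Prop :=
  ((i.1.out A x).isSome = true ∧ (i.2.2.out A x).isSome = true) ∧
    ((∀ u, i.2.2.out A x = some u → T2 i.1 i.2.1 A u) ∧
      (¬ T2 i.1 i.2.1 A x ∨ i.2.2.out A y = some x))

/-- the condition on the competitor -/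
private def w13D (i : Alg × Polynomial ℕ × Alg) (j : (Alg × Polynomial ℕ) ⊕ Alg)
    (z w : List Bool) (A : RO.Oracle) : Prop :=
  match j with
  | .inl j => (j.1.out A z).isSome = true
  | .inr Q => (Q.out A z).isSome = true ∧
      ((∀ u, Q.out A z = some u → T2 i.1 i.2.1 A u) ∧
        (¬ T2 i.1 i.2.1 A z ∨ Q.out A w = some z))

/-- the conclusion -/
private def w13E (i : Alg × Polynomial ℕ × Alg) (j : (Alg × Polynomial ℕ) ⊕ Alg)
    (f : Alg × Polynomial ℕ) (v : List Bool) (A : RO.Oracle) : Prop :=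
  match j with
  | .inl j => ∃ u, f.1.out A v = some u ∧ (T2 j.1 j.2 A v ↔ T2 i.1 i.2.1 A u)
  | .inr Q => ∃ u, Q.out A v = some u ∧
      ∃ w ∈ {w : List Bool | w.length ≤ f.2.eval v.length}, i.2.2.out A w = some u

private theorem w13_lcC (i : Alg × Polynomial ℕ × Alg) (x y : List Bool) : Lc (w13C i x y) :=
  ((Lc.tot _ _).and (Lc.tot _ _)).and
    ((Lc.bindAll _ _ fun u => lc_t2 _ _ u).and ((lc_t2 _ _ _).not.or (Lc.out _ _ _)))

private theorem w13_lcD (i : Alg × Polynomial ℕ × Alg) (j : (Alg × Polynomial ℕ) ⊕ Alg)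
    (z w : List Bool) : Lc (w13D i j z w) := by
  cases j with
  | inl j => exact Lc.tot _ _
  | inr Q =>
    exact (Lc.tot _ _).and
      ((Lc.bindAll _ _ fun u => lc_t2 _ _ u).and ((lc_t2 _ _ _).not.or (Lc.out _ _ _)))

private theorem w13_fin (n : ℕ) : {w : List Bool | w.length ≤ n}.Finite :=
  List.finite_length_le Bool n

private theorem w13_lcE (i : Alg × Polynomial ℕ × Alg) (j : (Alg × Polynomial ℕ) ⊕ Alg)
    (f : Alg × Polynomial ℕ) (v : List Bool) : Lc (w13E i j f v) := by
  cases j with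
  | inl j => exact Lc.bind _ _ fun u => (lc_t2 _ _ _).iff (lc_t2 _ _ u)
  | inr Q =>
    exact Lc.bind _ _ fun u => Lc.existsFin _ (w13_fin _) fun w => Lc.out _ w _

private theorem w13_proofSystem {A : RO.Oracle} {K : List Bool → Prop} {P : Alg}
    (htot : ∀ x, (P.out A x).isSome = true) (hs : ∀ x u, P.out A x = some u → K u)
    (hc : ∀ x, ¬ K x ∨ ∃ y, P.out A y = some x) :
    ∃ F : List Bool → List Bool, (∀ x, P.out A x = some (F x)) ∧
      IsProofSystem A {z | K z} F := by
  refine ⟨fun x => (P.out A x).get (htot x), fun x => (Option.some_get _).symm, ?_, ?_⟩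
  · exact ⟨P, fun x => (Option.some_get _).symm⟩
  · ext z
    constructor
    · rintro ⟨x, rfl⟩
      exact hs x _ (Option.some_get _).symm
    · intro hz
      rcases hc z with h | ⟨y, h⟩
      · exact absurd hz h
      · refine ⟨y, ?_⟩
        have h2 := (Option.some_get (htot y)).trans h
        exact Option.some_injective _ h2

private theorem w13_form : {A : RO.Oracle | HasOpt2 A} =
    {A : RO.Oracle | ∃ i, (∀ x, ∃ y, w13C i x y A) ∧
      ∀ j, (∀ z, ∃ w, w13D i j z w A) → ∃ f, ∀ v, w13E i j f v A} := by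
  ext A
  constructor
  · rintro ⟨L, hL, hhard, P, ⟨⟨MP, hMP⟩, hrange⟩, hopt⟩
    obtain ⟨M, p, htot, hwt⟩ := isPi2_iff.1 hL
    have hmem : ∀ x, x ∈ L ↔ T2 M p A x := hwt
    have hLeq : L = {z | T2 M p A z} := Set.ext hmem
    refine ⟨(M, p, MP), ?_, ?_⟩
    · intro x
      have h1 : ∀ u, MP.out A x = some u → T2 M p A u := by
        intro u hu
        rw [hMP x] at hu
        have : u = P x := (Option.some_injective _ hu).symm
        rw [this, ← hmem, ← hrange]
        exact ⟨x, rfl⟩
      have h2 : (MP.out A x).isSome = true := by rw [hMP]; rfl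
      by_cases hx : T2 M p A x
      swap
      · exact ⟨[], ⟨htot x, h2⟩, h1, Or.inl hx⟩
      · rw [← hmem, ← hrange] at hx
        obtain ⟨y, hy⟩ := hx
        exact ⟨y, ⟨htot x, h2⟩, h1, Or.inr (by rw [hMP, hy])⟩
    · intro j hj
      cases j with
      | inl j =>
        obtain ⟨M', p'⟩ := j
        have hL' : IsPi2 A {z | T2 M' p' A z} := by
          exact isPi2_iff.2 ⟨M', p', fun x => (hj x).choose_spec, fun x => Iff.rfl⟩
        obtain ⟨F, hF⟩ := red_iff.1 (hhard _ hL')
        refine ⟨(F, 0), fun v => ?_⟩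
        obtain ⟨u, hu, huv⟩ := hF v
        refine ⟨u, hu, ?_⟩
        rw [hmem] at huv
        exact huv
      | inr Q =>
        have hjt : ∀ z, (Q.out A z).isSome = true := fun z => (hj z).choose_spec.1
        have hjs : ∀ z u, Q.out A z = some u → T2 M p A u := fun z => (hj z).choose_spec.2.1
        have hjc : ∀ z, ¬ T2 M p A z ∨ ∃ y, Q.out A y = some z := by
          intro z
          rcases (hj z).choose_spec.2.2 with h | h
          · exact Or.inl h
          · exact Or.inr ⟨_, h⟩
        obtain ⟨FQ, hFQ, hPS⟩ := w13_proofSystem hjt hjs hjc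
        rw [← hLeq] at hPS
        obtain ⟨q, hq⟩ := hopt FQ hPS
        refine ⟨(Q, q), fun v => ⟨FQ v, hFQ v, ?_⟩⟩
        obtain ⟨w, hw, hwl⟩ := hq v
        exact ⟨w, hwl, by rw [← hw]; exact hMP w⟩
  · rintro ⟨⟨M, p, MP⟩, hC, hj⟩
    have htot : ∀ x, (M.out A x).isSome = true := fun x => (hC x).choose_spec.1.1
    have hPt : ∀ x, (MP.out A x).isSome = true := fun x => (hC x).choose_spec.1.2
    have hPs : ∀ x u, MP.out A x = some u → T2 M p A u := fun x => (hC x).choose_spec.2.1
    have hPc : ∀ x, ¬ T2 M p A x ∨ ∃ y, MP.out A y = some x := by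
      intro x
      rcases (hC x).choose_spec.2.2 with h | h
      · exact Or.inl h
      · exact Or.inr ⟨_, h⟩
    obtain ⟨P, hP, hPS⟩ := w13_proofSystem hPt hPs hPc
    refine ⟨{z | T2 M p A z}, ?_, ?_, P, hPS, ?_⟩
    · exact isPi2_iff.2 ⟨M, p, htot, fun x => Iff.rfl⟩
    · intro L' hL'
      obtain ⟨M', p', htot', hwt'⟩ := isPi2_iff.1 hL'
      obtain ⟨f, hf⟩ := hj (.inl (M', p')) (fun z => ⟨[], htot' z⟩)
      refine red_iff.2 ⟨f.1, fun x => ?_⟩
      obtain ⟨u, hu, hux⟩ := hf x
      refine ⟨u, hu, ?_⟩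
      exact (hwt' x).trans hux
    · intro Q' hQ'
      obtain ⟨⟨MQ, hMQ⟩, hrange⟩ := hQ'
      obtain ⟨f, hf⟩ := hj (.inr MQ) (by
        intro z
        have h1 : ∀ u, MQ.out A z = some u → T2 M p A u := by
          intro u hu
          rw [hMQ z] at hu
          have h2 : u = Q' z := (Option.some_injective _ hu).symm
          have h3 : Q' z ∈ {z | T2 M p A z} := by rw [← hrange]; exact ⟨z, rfl⟩
          rw [h2]
          exact h3
        have h2 : (MQ.out A z).isSome = true := by rw [hMQ]; rfl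
        by_cases hz : T2 M p A z
        swap
        · exact ⟨[], h2, h1, Or.inl hz⟩
        · have h3 : z ∈ Set.range Q' := by rw [hrange]; exact hz
          obtain ⟨y, hy⟩ := h3
          exact ⟨y, h2, h1, Or.inr (by rw [hMQ, hy])⟩)
      refine ⟨f.2, fun w => ?_⟩
      obtain ⟨u, hu, v, hv, hvu⟩ := hf w
      refine ⟨v, ?_, hv⟩
      have h1 : some (P v) = some u := (hP v).symm.trans hvu
      have h2 : some (Q' w) = some u := (hMQ w).symm.trans hu
      exact Option.some_injective _ (h1.trans h2.symm)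

theorem up_opt2 : IsSigma04 {A : RO.Oracle | HasOpt2 A} := by
  rw [w13_form]
  exact sigma04_form w13_lcC w13_lcD w13_lcE

end Pool.Agent.H543R3.PC2
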