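import Pool.Agent.H543R3.PC2.Defs
import Pool.Agent.H543R3.PC.U0
import Pool.Agent.H543R3.PC.U1
import Pool.Agent.H543R3.PC.U2

/-!
# `p`-optimal proof systems for `Π₂`-complete sets: the upper bound
-/

namespace Pool.Agent.H543R3.PC2

open Pool.Agent.NPC Pool.Agent.H628R3 Pool.Agent.H628R3.RO Pool.Agent.H543R3.PC
open TopologicalSpace Topology

namespace W14

/-- Membership in the `Π₂` set with verifier `M` and bound `p`. -/
def T2 (M : Alg) (p : Polynomial ℕ) (A : RO.Oracle) (x : List Bool) : Prop :=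
  ∀ u : List Bool, u.length ≤ p.eval x.length →
    ∃ v : List Bool, v.length ≤ p.eval x.length ∧
      M.out A (pairBits x (pairBits u v)) = some [true]

theorem lc_T2 (M : Alg) (p : Polynomial ℕ) (x : List Bool) : Lc (fun A => T2 M p A x) := by
  have h := (Lc.existsFin {u : List Bool | u.length ≤ p.eval x.length}
    (List.finite_length_le Bool _)
    (P := fun u A => ¬ ∃ v ∈ {v : List Bool | v.length ≤ p.eval x.length},
      M.out A (pairBits x (pairBits u v)) = some [true])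
    (fun u => (Lc.existsFin {v : List Bool | v.length ≤ p.eval x.length}
      (List.finite_length_le Bool _)
      (P := fun v A => M.out A (pairBits x (pairBits u v)) = some [true])
      (fun v => Lc.out M _ _)).not)).not
  have e : (fun A => T2 M p A x) = fun A => ¬ ∃ u ∈ {u : List Bool | u.length ≤ p.eval x.length},
      ¬ ∃ v ∈ {v : List Bool | v.length ≤ p.eval x.length},
        M.out A (pairBits x (pairBits u v)) = some [true] := by
    funext A
    refine propext ⟨?_, ?_⟩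
    · rintro h ⟨u, hu, hn⟩
      obtain ⟨v, hv, hv'⟩ := h u hu
      exact hn ⟨v, hv, hv'⟩
    · intro h u hu
      by_contra hn
      refine h ⟨u, hu, ?_⟩
      rintro ⟨v, hv, hv'⟩
      exact hn ⟨v, hv, hv'⟩
  rw [e]
  exact h

theorem isPi2_iff {A : RO.Oracle} {L : Set (List Bool)} :
    IsPi2 A L ↔ ∃ (M : Alg) (p : Polynomial ℕ), (∀ x, (M.out A x).isSome = true) ∧
      ∀ x, x ∈ L ↔ T2 M p A x := by
  constructor
  · rintro ⟨V, p, ⟨M, hM⟩, h⟩
    refine ⟨M, p, fun x => by rw [hM x]; rfl, fun x => (h x).trans ?_⟩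
    refine forall_congr' fun u => forall_congr' fun _ => ?_
    refine exists_congr fun w => and_congr_right fun _ => ?_
    rw [hM]
    simp
  · rintro ⟨M, p, hM, h⟩
    refine ⟨fun x => (M.out A x).getD [], p, ⟨M, fun x => u2_getD (hM x)⟩,
      fun x => (h x).trans ?_⟩
    refine forall_congr' fun u => forall_congr' fun _ => ?_
    exact exists_congr fun w => and_congr_right fun _ => (u2_eq (hM _) _).symm

/-- The conditions on a verifier `M` and a proof system `P`. -/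
def CC (i : Alg × Polynomial ℕ × Alg) (x y : List Bool) (A : RO.Oracle) : Prop :=
  ((i.1.out A x).isSome = true ∧ (∃ u, i.2.2.out A x = some u ∧ T2 i.1 i.2.1 A u)) ∧
    (T2 i.1 i.2.1 A x → i.2.2.out A y = some x)

/-- The conditions on the second object. -/
def DD (i : Alg × Polynomial ℕ × Alg) (j : (Alg × Polynomial ℕ) ⊕ Alg) (z w : List Bool)
    (A : RO.Oracle) : Prop :=
  match j with
  | .inl a => (a.1.out A z).isSome = true
  | .inr Q => (∃ u, Q.out A z = some u ∧ T2 i.1 i.2.1 A u) ∧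
      (T2 i.1 i.2.1 A z → Q.out A w = some z)

/-- The conditions on the reduction. -/
def EE (i : Alg × Polynomial ℕ × Alg) (j : (Alg × Polynomial ℕ) ⊕ Alg) (f : Alg) (v : List Bool)
    (A : RO.Oracle) : Prop :=
  match j with
  | .inl a => ∃ u, f.out A v = some u ∧ (T2 a.1 a.2 A v ↔ T2 i.1 i.2.1 A u)
  | .inr Q => ∃ u, f.out A v = some u ∧ ∃ t, i.2.2.out A u = some t ∧ Q.out A v = some t

theorem lc_CC (i : Alg × Polynomial ℕ × Alg) (x y : List Bool) : Lc (CC i x y) :=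
  ((Lc.tot _ _).and (Lc.bind _ _ fun _ => lc_T2 _ _ _)).and
    ((lc_T2 _ _ _).imp (Lc.out _ _ _))

theorem lc_DD (i : Alg × Polynomial ℕ × Alg) (j : (Alg × Polynomial ℕ) ⊕ Alg) (z w : List Bool) :
    Lc (DD i j z w) := by
  rcases j with a | Q
  · exact Lc.tot _ _
  · exact (Lc.bind _ _ fun _ => lc_T2 _ _ _).and ((lc_T2 _ _ _).imp (Lc.out _ _ _))

theorem lc_EE (i : Alg × Polynomial ℕ × Alg) (j : (Alg × Polynomial ℕ) ⊕ Alg) (f : Alg)
    (v : List Bool) : Lc (EE i j f v) := by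
  rcases j with a | Q
  · exact Lc.bind _ _ fun _ => (lc_T2 _ _ _).iff (lc_T2 _ _ _)
  · exact Lc.bind _ _ fun _ => Lc.bind _ _ fun _ => Lc.out _ _ _

theorem isPS_of {A : RO.Oracle} {L : Set (List Bool)} (Q : Alg)
    (h₁ : ∀ x, ∃ u, Q.out A x = some u ∧ u ∈ L) (h₂ : ∀ z ∈ L, ∃ w, Q.out A w = some z) :
    ∃ Q₀, (∀ x, Q.out A x = some (Q₀ x)) ∧ IsProofSystem A L Q₀ := by
  choose Q₀ h3 h4 using h₁
  refine ⟨Q₀, h3, ⟨Q, h3⟩, ?_⟩
  ext z
  constructor
  · rintro ⟨x, rfl⟩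
    exact h4 x
  · intro hz
    obtain ⟨w, hw⟩ := h₂ z hz
    refine ⟨w, ?_⟩
    rw [h3] at hw
    exact Option.some.inj hw

theorem set_eq : {A : RO.Oracle | HasPOpt2 A} = {A : RO.Oracle | ∃ i, (∀ x, ∃ y, CC i x y A) ∧
    ∀ j, (∀ z, ∃ w, DD i j z w A) → ∃ f, ∀ v, EE i j f v A} := by
  ext A
  simp only [Set.mem_ofPred_eq]
  constructor
  · rintro ⟨L, hL, hH, P₀, ⟨⟨P, hP⟩, hr⟩, ho⟩
    obtain ⟨M, p, hM, hL'⟩ := isPi2_iff.1 hL
    refine ⟨(M, p, P), fun x => ?_, ?_⟩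
    · have h1 : ∃ u, P.out A x = some u ∧ T2 M p A u :=
        ⟨P₀ x, hP x, (hL' _).1 (hr ▸ Set.mem_range_self x)⟩
      by_cases hx : T2 M p A x
      · have h2 : x ∈ Set.range P₀ := hr ▸ (hL' x).2 hx
        obtain ⟨y, hy⟩ := h2
        exact ⟨y, ⟨hM x, h1⟩, fun _ => by show P.out A y = some x; rw [hP, hy]⟩
      · exact ⟨[], ⟨hM x, h1⟩, fun h => absurd h hx⟩
    · rintro (⟨M', p'⟩ | Q) hD
      · have h1 := hH {z | T2 M' p' A z}
          (isPi2_iff.2 ⟨M', p', fun x => (hD x).choose_spec, fun x => Iff.rfl⟩)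
        obtain ⟨F, hF⟩ := red_iff.1 h1
        refine ⟨F, fun v => ?_⟩
        obtain ⟨u, hu, hu'⟩ := hF v
        exact ⟨u, hu, hu'.trans (hL' u)⟩
      · obtain ⟨Q₀, hQ, hQ'⟩ := isPS_of (L := L) Q
          (fun x => by
            obtain ⟨w, ⟨u, hu, hu'⟩, -⟩ := hD x
            exact ⟨u, hu, (hL' u).2 hu'⟩)
          (fun z hz => by
            obtain ⟨w, -, hw⟩ := hD z
            exact ⟨w, hw ((hL' z).1 hz)⟩)
        obtain ⟨h, ⟨f, hf⟩, hh⟩ := ho Q₀ hQ'
        refine ⟨f, fun v => ⟨h v, hf v, P₀ (h v), hP _, ?_⟩⟩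
        rw [hQ, hh]
  · rintro ⟨⟨M, p, P⟩, hC, hE⟩
    set L : Set (List Bool) := {z | T2 M p A z} with hL
    have hM : ∀ x, (M.out A x).isSome = true := fun x => (hC x).choose_spec.1.1
    obtain ⟨P₀, hP, hP'⟩ := isPS_of (L := L) P (fun x => (hC x).choose_spec.1.2)
      (fun z hz => ⟨_, (hC z).choose_spec.2 hz⟩)
    refine ⟨L, isPi2_iff.2 ⟨M, p, hM, fun x => Iff.rfl⟩, ?_, P₀, hP', ?_⟩
    · intro L' hL'
      obtain ⟨M', p', hM', hW'⟩ := isPi2_iff.1 hL'
      obtain ⟨F, hF⟩ := hE (.inl (M', p')) (fun z => ⟨[], hM' z⟩)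
      refine red_iff.2 ⟨F, fun x => ?_⟩
      obtain ⟨u, hu, hu'⟩ := hF x
      exact ⟨u, hu, (hW' x).trans hu'⟩
    · rintro Q₀ ⟨⟨Q, hQ⟩, hr⟩
      obtain ⟨f, hf⟩ := hE (.inr Q) (fun z => by
        have h1 : ∃ u, Q.out A z = some u ∧ T2 M p A u :=
          ⟨Q₀ z, hQ z, by
            have : Q₀ z ∈ L := hr ▸ Set.mem_range_self z
            exact this⟩
        by_cases hz : T2 M p A z
        · have h2 : z ∈ Set.range Q₀ := hr ▸ hz
          obtain ⟨y, hy⟩ := h2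
          exact ⟨y, h1, fun _ => by rw [hQ, hy]⟩
        · exact ⟨[], h1, fun h => absurd h hz⟩)
      choose h hh hh' using hf
      refine ⟨h, ⟨f, hh⟩, fun w => ?_⟩
      obtain ⟨t, ht, ht'⟩ := hh' w
      have h1 : P.out A (h w) = some t := ht
      rw [hP] at h1
      rw [hQ] at ht'
      rw [Option.some.inj h1, Option.some.inj ht']

end W14

theorem up_popt2 : H556R2.IsSigma04 {A : RO.Oracle | HasPOpt2 A} := by
  rw [W14.set_eq]
  exact sigma04_form W14.lc_CC W14.lc_DD W14.lc_EE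

end Pool.Agent.H543R3.PC2
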