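import Pool.Agent.H543R3.PC2.Defs
import Pool.Agent.H543R3.PC2.W1
import Pool.Agent.H543R3.PC2.W3
import Pool.Agent.H543R3.PC2.W2
import Pool.Agent.H543R3.PC.F2

/-!
# W4: the guarded proof system is shallow
-/

namespace Pool.Agent.H543R3.PC2

open Pool.Agent.NPC Pool.Agent.H628R3.RO Pool.Agent.H543R3.PC

theorem w4_wT {z : List Bool} (hg : wT z + zE z * (wT z + 1) + 2 ^ (zm z + 2) ≤ zR z) :
    wT z ≤ zR z := by
  have := Nat.zero_le (zE z * (wT z + 1))
  have := Nat.zero_le (2 ^ (zm z + 2))
  omega

theorem semW_ok (S : Finset ℕ) (nH : ℕ) (d : List Bool) (B : List Bool → Bool)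
    (x : List Bool) :
    Sh (semW S nH d B x) (x.length + (d.length + 1)) (x.length + (d.length + 1)) ∧
    (∀ G, (semW S nH d B x G).length ≤ x.length + (d.length + 1)) ∧
    ∀ B', AgB (x.length + (d.length + 1)) B B' → semW S nH d B' x = semW S nH d B x := by
  classical
  have hRz := f2_zR x
  have hc := (cF_spec (req (zE x)).M₁) (zU x)
  refine ⟨?_, ?_, ?_⟩
  · by_cases hg : wT x + zE x * (wT x + 1) + 2 ^ (zm x + 2) ≤ zR x
    · have hT := w4_wT hg
      have h1 := okW_sh S nH B x hg
      have h2 : Sh (fun G => (req (zE x)).M₁.out (mk B G) (zU x)) (wT x) (zR x) :=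
        sh_mono (hc.1 B) le_rfl hT
      have h3 := f2_pair h1 h2 (fun (a : Prop) b => if a then b.getD d else d)
      refine sh_mono h3 ?_ ?_
      · omega
      · omega
    · have h4 : semW S nH d B x = fun _ => d := by
        funext G
        have hok : ¬ okW S nH B G x := fun h => hg h.grd
        unfold semW
        simp only [hok, if_false]
      rw [h4]
      exact sh_const _ _ _
  · intro G
    unfold semW
    split_ifs with hok
    · have hT := w4_wT hok.grd
      rcases hy : (req (zE x)).M₁.out (mk B G) (zU x) with _ | y
      · simp only [Option.getD_none]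
        omega
      · simp only [Option.getD_some]
        have hl := hc.2.2 _ _ hy
        have hl' : y.length ≤ wT x := hl
        omega
    · omega
  · intro B' hB
    funext G
    have h1 : okW S nH B' G x ↔ okW S nH B G x :=
      okW_agB S nH G _ (fun v hv => hB v (by omega))
    by_cases hok : okW S nH B G x
    · have hok' := h1.2 hok
      have hT := w4_wT hok.grd
      have hBT : AgB ((cF (req (zE x)).M₁).eval (zU x).length) B B' := by
        intro v hv
        have hv' : v.length ≤ wT x := hv
        exact hB v (by omega)
      have h2 := hc.2.1 B B' G hBT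
      unfold semW
      simp only [hok, hok', h2]
    · have hok' : ¬ okW S nH B' G x := fun h => hok (h1.1 h)
      unfold semW
      simp only [hok, hok', if_false]

end Pool.Agent.H543R3.PC2
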