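import Pool.Agent.H543R3.PC2.Defs
import Pool.Agent.H543R3.PC2.W1
import Pool.Agent.H543R3.PC2.W2
import Pool.Agent.H543R3.PC.F3

/-!
# W5: the brute-force proof system is shallow
-/

namespace Pool.Agent.H543R3.PC2

open Pool.Agent.NPC Pool.Agent.H628R3.RO Pool.Agent.H543R3.PC

theorem semBW_ok (d : List Bool) (B : List Bool → Bool) (x : List Bool) :
    Sh (semBW d B x) (x.length + (d.length + 1)) (x.length + (d.length + 1)) ∧
    (∀ G, (semBW d B x G).length ≤ x.length + (d.length + 1)) ∧
    ∀ B', AgB (x.length + (d.length + 1)) B B' → semBW d B' x = semBW d B x := by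
  classical
  have hx := unpair_len x
  have hlen : ∀ G, (semBW d B x G).length ≤ x.length + (d.length + 1) := by
    intro G
    unfold semBW
    split_ifs <;> omega
  by_cases hg : 2 ^ ((unpair x).1.length + 2) ≤ (unpair x).2.length
  · have hf : ∀ B', semBW d B' x = fun G =>
        (fun p : Prop => if p then (unpair x).1 else d) ((unpair x).1 ∈ can2 B' G) := by
      intro B'
      funext G
      unfold semBW
      simp only [hg, true_and]
    refine ⟨?_, hlen, ?_⟩
    · rw [hf B]
      have h1 : Sh (fun G => (unpair x).1 ∈ can2 B G) (2 ^ ((unpair x).1.length + 2))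
          (unpair x).1.length :=
        sh_full (fun G G' h => propext (can2_agr h))
      exact sh_mono (sh_map h1 (fun p : Prop => if p then (unpair x).1 else d))
        (by omega) (by omega)
    · intro B' hB
      rw [hf B, hf B']
      funext G
      have h2 : ((unpair x).1 ∈ can2 B' G) = ((unpair x).1 ∈ can2 B G) :=
        propext (can2_agB (f3_agB_mono hB (by omega)))
      rw [h2]
  · have hf : ∀ B', semBW d B' x = fun _ => d := by
      intro B'
      funext G
      unfold semBW
      rw [if_neg]
      intro h
      exact hg h.1
    refine ⟨?_, hlen, ?_⟩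
    · rw [hf B]
      exact sh_const _ _ _
    · intro B' _
      rw [hf B, hf B']

end Pool.Agent.H543R3.PC2
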