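import Pool.Agent.H543R3.PC2.Defs
import Pool.Agent.H543R3.PC2.W4
import Pool.Agent.H543R3.PC2.W5
import Pool.Agent.H543R3.PC.F5

/-!
# W6: the guide exists

-/

namespace Pool.Agent.H543R3.PC2

open Pool.Agent.NPC Pool.Agent.H628R3.RO Pool.Agent.H543R3.PC

/-- The old and the new tasks. -/
abbrev w6_T : Type := Task ⊕ (Finset ℕ × ℕ × List Bool) ⊕ List Bool

/-- The functions of the old and the new tasks. -/
noncomputable def w6_sem : w6_T → (List Bool → Bool) → List Bool → GG → List Bool
  | .inl T => sem T
  | .inr (.inl q) => semW q.1 q.2.1 q.2.2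
  | .inr (.inr d) => semBW d

/-- The sizes of the old and the new tasks. -/
noncomputable def w6_kap : w6_T → ℕ
  | .inl T => kap T
  | .inr (.inl q) => q.2.2.length + 1
  | .inr (.inr d) => d.length + 1

theorem w6_loc : ∀ T B B' x, AgB (x.length + w6_kap T) B B' → w6_sem T B' x = w6_sem T B x := by
  intro T B B' x h
  rcases T with T | q | d
  · cases T with
    | gV S nH κ i dflt => exact (semG_ok S nH κ i dflt B x).2.2 B' h
    | gP S nH κ d => exact (semP_ok S nH κ d B x).2.2 B' h
    | cV => exact (semC_ok B x).2.2 B' h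
    | bP b d => exact (semB_ok b d B x).2.2 B' h
    | lV j N b => rfl
    | sV j N => rfl
    | uV => rfl
    | uV' => rfl
  · exact (semW_ok q.1 q.2.1 q.2.2 B x).2.2 B' h
  · exact (semBW_ok d B x).2.2 B' h

theorem w6_sh : ∀ T B x, Sh (w6_sem T B x) (x.length + w6_kap T) (x.length + w6_kap T) := by
  intro T B x
  rcases T with T | q | d
  · cases T with
    | gV S nH κ i dflt => exact (semG_ok S nH κ i dflt B x).1
    | gP S nH κ d => exact (semP_ok S nH κ d B x).1
    | cV => exact (semC_ok B x).1
    | bP b d => exact (semB_ok b d B x).1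
    | lV j N b => exact (semL_ok j N b x).1
    | sV j N => exact (semS_ok j N x).1
    | uV => exact (semU_ok x).1
    | uV' => exact (semU'_ok x).1
  · exact (semW_ok q.1 q.2.1 q.2.2 B x).1
  · exact (semBW_ok d B x).1

theorem w6_len : ∀ T B x G, (w6_sem T B x G).length ≤ x.length + w6_kap T := by
  intro T B x G
  rcases T with T | q | d
  · cases T with
    | gV S nH κ i dflt => exact (semG_ok S nH κ i dflt B x).2.1 G
    | gP S nH κ d => exact (semP_ok S nH κ d B x).2.1 G
    | cV => exact (semC_ok B x).2.1 G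
    | bP b d => exact (semB_ok b d B x).2.1 G
    | lV j N b => exact (semL_ok j N b x).2 G
    | sV j N => exact (semS_ok j N x).2 G
    | uV => exact (semU_ok x).2 G
    | uV' => exact (semU'_ok x).2 G
  · exact (semW_ok q.1 q.2.1 q.2.2 B x).2.1 G
  · exact (semBW_ok d B x).2.1 G

theorem exists_guideW : ∃ B, GuideW B := by
  have : Countable Task := countable_task
  have : Nonempty w6_T := ⟨.inl .cV⟩
  obtain ⟨B, hB⟩ := guide_exists (τ := w6_T) w6_sem w6_kap w6_loc w6_sh w6_len
  exact ⟨B, fun T => hB (.inl T), fun S nH d => hB (.inr (.inl (S, nH, d))),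
    fun d => hB (.inr (.inr d))⟩

end Pool.Agent.H543R3.PC2
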