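import Pool.Agent.H543R3.PC.Final
import Pool.Agent.H543R3.PC2.W6
import Pool.Agent.H543R3.PC2.W11
import Pool.Agent.H543R3.PC2.W12
import Pool.Agent.H543R3.PC2.W13
import Pool.Agent.H543R3.PC2.W14

/-!
# The exact Borel complexity of the existence of optimal proof systems for `Π₂`-complete sets
-/

namespace Pool.Agent.H543R3.PC2

open Pool.Agent.NPC Pool.Agent.H628R3 Pool.Agent.H628R3.RO Pool.Agent.H543R3.PC
open H556R2 (IsSigma04 Sigma04Complete)

/-- The scheme of the completeness theorems, with the larger guide. -/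
theorem schemeW {Has : RO.Oracle → Prop} (hup : IsSigma04 {A : RO.Oracle | Has A})
    (hpos : ∀ {B : List Bool → Bool} {G : GG} {S : Finset ℕ} {nH : ℕ}, GuideW B →
      PosSit B G S nH → Has (mk B G))
    (hneg : ∀ {B : List Bool → Bool} {G : GG}, GuideW B → ∀ {H : Set ℕ}, NegSit B G H →
      ¬ Has (mk B G)) :
    Sigma04Complete {A : RO.Oracle | Has A} := by
  obtain ⟨B, hB⟩ := exists_guideW
  obtain ⟨f, hf, hs⟩ := situations B
  refine complete_of hup B f hf (fun ev h => ?_) fun ev h => ?_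
  · obtain ⟨nH, hP⟩ := (hs ev).1 h
    exact hpos hB hP
  · exact hneg hB ((hs ev).2 h)

theorem hasOpt2_of_hasPOpt2 {A : RO.Oracle} (h : HasPOpt2 A) : HasOpt2 A := by
  obtain ⟨L, h1, h2, P, h3⟩ := h
  exact ⟨L, h1, h2, P, popt_opt h3⟩

theorem opt2_complete : Sigma04Complete {A : RO.Oracle | HasOpt2 A} :=
  schemeW up_opt2 (fun hB h => hasOpt2_of_hasPOpt2 (pos_popt2 hB h)) fun hB _ h => neg_opt2 hB.1 h

theorem popt2_complete : Sigma04Complete {A : RO.Oracle | HasPOpt2 A} :=
  schemeW up_popt2 pos_popt2 fun hB _ h h' => neg_opt2 hB.1 h (hasOpt2_of_hasPOpt2 h')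

end Pool.Agent.H543R3.PC2
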