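import Pool.Agent.H628R3.RO.A3

/-!
# `Π₂` relative to an oracle
-/

namespace Pool.Agent.H543R3.PC2

open Pool.Agent.NPC Pool.Agent.H628R3.RO

/-- `Π₂` (of the polynomial hierarchy) relative to `A`, general oracle version. -/
def IsPiTwo (A : Oracle) (L : Set (List Bool)) : Prop :=
  ∃ (V : List Bool → List Bool) (p : Polynomial ℕ), IsFP A V ∧ ∀ x, x ∈ L ↔
    ∀ u : List Bool, u.length ≤ p.eval x.length →
      ∃ v : List Bool, v.length ≤ p.eval x.length ∧ V (pairBits x (pairBits u v)) = [true]

theorem isPiTwo_of_isCoNP {A : Oracle} {L : Set (List Bool)} (h : IsCoNP A L) : IsPiTwo A L := by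
  obtain ⟨V, p, hV, hL⟩ := h
  have hpre : Poly (fun y : List Bool => pairBits (unpair y).1 (unpair (unpair y).2).1) :=
    H622R2.poly_pairBits (Poly.fst poly_unpair) (Poly.fst (poly_unpair.comp (Poly.snd poly_unpair)))
  have hpost : Poly (fun z : List Bool => if z = [true] then ([] : List Bool) else [true]) :=
    Poly.ite (Poly.decide_eq Poly.id (NPC.Poly.const _)) (NPC.Poly.const _) (NPC.Poly.const _)
  refine ⟨fun y => if V (pairBits (unpair y).1 (unpair (unpair y).2).1) = [true] then [] else [true],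
    p, (IsFP.of_poly hpost).comp (hV.comp (IsFP.of_poly hpre)), fun x => ?_⟩
  have hx := hL x
  rw [Set.mem_compl_iff] at hx
  constructor
  · intro hxL u hu
    refine ⟨[], by simp, ?_⟩
    simp only [unpair_pairBits]
    rw [if_neg]
    intro hVu
    exact (hx.2 ⟨u, hu, hVu⟩) hxL
  · intro h
    by_contra hxL
    obtain ⟨u, hu, hVu⟩ := hx.1 hxL
    obtain ⟨v, -, hv⟩ := h u hu
    simp only [unpair_pairBits] at hv
    rw [if_pos hVu] at hv
    simp at hv

end Pool.Agent.H543R3.PC2
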