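import Pool.Agent.H628R3.RO.F1
import Pool.Agent.H543R3.PC2.Pi2Defs

set_option autoImplicit false

/-!
# Relative to a random oracle every proof system for a hard set is weak on an easy sequence
-/

namespace Pool.Agent.H543R3.PC2

open MeasureTheory Pool.Agent.NPC Pool.Agent.H628R3.RO

theorem random_seq : ∀ᵐ A ∂randomOracle, ∀ L : Set (List Bool), CoNPHardRel A L →
    ∀ P, IsProofSystem A L P → ∃ Z, IsFP A Z ∧ (∀ x, Z x ∈ L) ∧
      ∃ k : ℕ, ∀ N, ∃ n, N ≤ n ∧ ∀ v, P v = Z (List.replicate n true) → 2 ^ n ≤ v.length ^ k := by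
  choose b k hc hcore using ae_T
  have hall : ∀ᵐ A ∂randomOracle, ∀ M : Alg, (∀ n j, A ∉ BadT n j ∩ ErrP M n j) →
      ∃ (t : ℕ) (L : List (List Bool)),
      (∃ i0, ∀ i ≥ i0, A ∉ BadT (Tt (b M) t i) (lev BadT (ErrP M) t L (Tt (b M) t) i)) ∧
      ∀ i0, ∃ i ≥ i0, A ∉ GoodT M (k M) (Tt (b M) t i)
        (lev BadT (ErrP M) t L (Tt (b M) t) i) := ae_all_iff.2 hcore
  filter_upwards [hall] with A hA L hL P hP
  obtain ⟨F, hF, hr⟩ := hL _ (isCoNP_LT A)
  set L₀ : Set (List Bool) := {x | x = [] ∨ A ∉ BadT (siz x) (lvl x)} with hL₀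
  have h0 : [] ∈ L₀ := Or.inl rfl
  have hP₀ : IsProofSystem A L₀ (backSys F P []) := backSys_isProofSystem hP hF hr h0
  obtain ⟨M, hM⟩ := hP₀.1
  obtain ⟨t, S, ⟨i1, h1⟩, h2⟩ := hA M (by
    rintro n j ⟨h3, u, _, h4⟩
    rw [hM u, Option.some.injEq] at h4
    have h5 : code n j ∈ L₀ := by
      rw [← hP₀.2]
      exact ⟨u, h4⟩
    rcases h5 with h5 | h5
    · exact code_ne_nil n j h5
    · rw [siz_code, lvl_code] at h5
      exact h5 h3)
  set f := schK BadT (ErrP M) (b M) t S (Tt (b M) t i1) with hf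
  have hfn : ∀ n j, f n = some j → j ≤ n := fun n j h => schK_le h
  have hfL : ∀ n j, f n = some j → code n j ∈ L₀ := by
    intro n j h
    right
    rw [siz_code, lvl_code]
    obtain ⟨h3, i, rfl, rfl⟩ := eq_of_schK h
    exact h1 i ((strictMono_Tt (b M) t).le_iff_le.1 h3)
  have hpf : Poly (fun x : List Bool => f x.length) := p_schK (hc M) t S _
  have hpk : ∀ x, pick f x ∈ L₀ := by
    intro x
    cases h2 : f x.length with
    | none => rw [pick_none h2]; exact h0
    | some j =>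
      rw [pick_some h2 (hfn _ _ h2)]
      exact hfL _ _ h2
  refine ⟨fun x => F (pick f x), hF.comp (IsFP.of_poly (poly_pick hpf)), fun x => (hr _).1 (hpk x),
    2 * k M + 2, fun N => ?_⟩
  obtain ⟨n0, hn0⟩ := gap (k M)
  obtain ⟨i, hi, h3⟩ := h2 (max i1 (max N n0))
  set n := Tt (b M) t i with hn
  set j := lev BadT (ErrP M) t S (Tt (b M) t) i with hj
  have hTi : t + 4 + i ≤ n := add_le_Tt (b M) t i
  have hi1 : i1 ≤ i := le_trans (le_max_left _ _) hi
  have hiN : N ≤ i := le_trans (le_trans (le_max_left _ _) (le_max_right _ _)) hi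
  have hin : n0 ≤ i := le_trans (le_trans (le_max_right _ _) (le_max_right _ _)) hi
  have hfi : f n = some j := schK_Tt ((strictMono_Tt (b M) t).monotone hi1)
  have hjn : j ≤ n := hfn _ _ hfi
  refine ⟨n, by omega, fun v hv => ?_⟩
  have e1 : F (pick f (List.replicate n true)) = F (code n j) := by
    rw [pick_some (j := j), List.length_replicate]
    · rw [List.length_replicate]; exact hfi
    · rw [List.length_replicate]; exact hjn
  replace hv : P v = F (code n j) := hv.trans e1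
  have e2 := backSys_pair (x₀ := []) hv
  have h4 : ¬ (pairBits (code n j) v).length ^ (k M) ≤ 2 ^ n := fun h5 =>
    h3 ⟨_, h5, by rw [hM, e2]⟩
  refine le_trans (Nat.pow_le_pow_right (by norm_num) (by omega : n ≤ n + 2))
    (hn0 n (by omega) v.length (pairBits (code n j) v).length ?_ (by omega))
  rw [length_pairBits_A3, length_code]
  omega

end Pool.Agent.H543R3.PC2
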