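import Pool.Agent.H543R3.PC2.Defs
import Pool.Agent.H543R3.PC2.W1
import Pool.Agent.H543R3.PC2.W2
import Pool.Agent.H556R2.Borel
import Pool.Agent.H556R2.Sigma04Defs

/-!
# Stubs
-/

namespace Pool.Agent.H543R3.PC2

open Pool.Agent.NPC Pool.Agent.H628R3.RO Pool.Agent.H543R3.PC

/-! ### W3 -/

theorem okW_agB (S : Finset ℕ) (nH : ℕ) {B B' : List Bool → Bool} (G : GG) (z : List Bool)
    (h : AgB z.length B B') : okW S nH B' G z ↔ okW S nH B G z := sorry

theorem okW_sh (S : Finset ℕ) (nH : ℕ) (B : List Bool → Bool) (z : List Bool)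
    (hg : wT z + zE z * (wT z + 1) + 2 ^ (zm z + 2) ≤ zR z) :
    Sh (fun G => okW S nH B G z) (zE z * (wT z + 1) + 2 ^ (zm z + 2)) (zR z) := sorry

/-! ### W4 -/

theorem semW_ok (S : Finset ℕ) (nH : ℕ) (d : List Bool) (B : List Bool → Bool)
    (x : List Bool) :
    Sh (semW S nH d B x) (x.length + (d.length + 1)) (x.length + (d.length + 1)) ∧
    (∀ G, (semW S nH d B x G).length ≤ x.length + (d.length + 1)) ∧
    ∀ B', AgB (x.length + (d.length + 1)) B B' → semW S nH d B' x = semW S nH d B x := sorry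

/-! ### W5 -/

theorem semBW_ok (d : List Bool) (B : List Bool → Bool) (x : List Bool) :
    Sh (semBW d B x) (x.length + (d.length + 1)) (x.length + (d.length + 1)) ∧
    (∀ G, (semBW d B x G).length ≤ x.length + (d.length + 1)) ∧
    ∀ B', AgB (x.length + (d.length + 1)) B B' → semBW d B' x = semBW d B x := sorry

/-! ### W6 -/

theorem exists_guideW : ∃ B, GuideW B := sorry

/-! ### W7 -/

section
variable {B : List Bool → Bool} {G : GG} {S : Finset ℕ} {nH : ℕ}

theorem can2_isPi2 (hB : GuideP B) : IsPi2 (mk B G) (can2 B G) := sorry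

theorem can2_hard : Pi2Hard (mk B G) (can2 B G) := sorry

theorem exists_mem_can2 : ∃ z, z ∈ can2 B G := sorry

/-! ### W8 -/

theorem bruteW (hB : GuideW B) {d : List Bool} (hd : d ∈ can2 B G) :
    ∃ P, IsProofSystem (mk B G) (can2 B G) P := sorry

/-! ### W9 -/

theorem exists_ver (hB : GuideP B) (M : Alg) : ∃ (V : Alg) (p : Polynomial ℕ),
    (∀ G', (∀ y, ¬ CBad ⟨.tfnp, V, M, p, 0⟩ B G' y) → ∀ w, ¬ PBad M B G' w) ∧
    ∀ G', (∀ w, ∃ z, M.out (mk B G') w = some z) → (∀ w, ¬ PBad M B G' w) →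
      ∀ y, ¬ CBad ⟨.tfnp, V, M, p, 0⟩ B G' y := sorry

/-! ### W10 -/

theorem okW_sound (h : PosSit B G S nH) {z : List Bool} (hz : okW S nH B G z) :
    ¬ PBad (req (zE z)).M₁ B G (zU z) := sorry

theorem okW_complete (hB : GuideP B) (h : PosSit B G S nH) (M : Alg)
    (h1 : ∀ w, ∃ z, M.out (mk B G) w = some z) (h2 : ∀ w, ¬ PBad M B G w) :
    ∃ ζ : List Bool → List Bool, Poly ζ ∧
      ∀ u, okW S nH B G (ζ u) ∧ (req (zE (ζ u))).M₁ = M ∧ zU (ζ u) = u := sorry

/-! ### W11 -/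

theorem pos_popt2 (hB : GuideW B) (h : PosSit B G S nH) : HasPOpt2 (mk B G) := sorry

/-! ### W12 -/

theorem neg_opt2 (hB : GuideP B) {H : Set ℕ} (h : NegSit B G H) : ¬ HasOpt2 (mk B G) := sorry

end

/-! ### W13, W14 -/

theorem up_opt2 : H556R2.IsSigma04 {A : Oracle | HasOpt2 A} := sorry

theorem up_popt2 : H556R2.IsSigma04 {A : Oracle | HasPOpt2 A} := sorry

end Pool.Agent.H543R3.PC2
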