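import Pool.Agent.H543R3.PC2.Defs
import Pool.Agent.H543R3.PC2.W1
import Pool.Agent.H543R3.PC2.W2

namespace Pool.Agent.H543R3.PC2

open Pool.Agent.NPC Pool.Agent.H628R3.RO Pool.Agent.H543R3.PC

section
variable {B : List Bool → Bool} {G : GG} {S : Finset ℕ} {nH : ℕ}

theorem exists_ver (hB : GuideP B) (M : Alg) : ∃ (V : Alg) (p : Polynomial ℕ),
    (∀ G', (∀ y, ¬ CBad ⟨.tfnp, V, M, p, 0⟩ B G' y) → ∀ w, ¬ PBad M B G' w) ∧
    ∀ G', (∀ w, ∃ z, M.out (mk B G') w = some z) → (∀ w, ¬ PBad M B G' w) →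
      ∀ y, ¬ CBad ⟨.tfnp, V, M, p, 0⟩ B G' y := sorry

end

end Pool.Agent.H543R3.PC2
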