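import Pool.Agent.H543R3.PC2.Defs
import Pool.Agent.H543R3.PC2.W1
import Pool.Agent.H543R3.PC2.W2
import Pool.Agent.H543R3.PC.P0

/-!
# Statements of W7, W8, W10 used in W11
-/

namespace Pool.Agent.H543R3.PC2

open Pool.Agent.NPC Pool.Agent.H628R3.RO Pool.Agent.H543R3.PC

section
variable {B : List Bool → Bool} {G : GG} {S : Finset ℕ} {nH : ℕ}

theorem can2_isPi2 (hB : GuideP B) : IsPi2 (mk B G) (can2 B G) := sorry

theorem can2_hard : Pi2Hard (mk B G) (can2 B G) := sorry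

theorem exists_mem_can2 : ∃ z, z ∈ can2 B G := sorry

theorem bruteW (hB : GuideW B) {d : List Bool} (hd : d ∈ can2 B G) :
    ∃ P, IsProofSystem (mk B G) (can2 B G) P := sorry

theorem okW_sound (h : PosSit B G S nH) {z : List Bool} (hz : okW S nH B G z) :
    ¬ PBad (req (zE z)).M₁ B G (zU z) := sorry

theorem okW_complete (hB : GuideP B) (h : PosSit B G S nH) (M : Alg)
    (h1 : ∀ w, ∃ z, M.out (mk B G) w = some z) (h2 : ∀ w, ¬ PBad M B G w) :
    ∃ ζ : List Bool → List Bool, Poly ζ ∧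
      ∀ u, okW S nH B G (ζ u) ∧ (req (zE (ζ u))).M₁ = M ∧ zU (ζ u) = u := sorry

end

end Pool.Agent.H543R3.PC2
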