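import Pool.Agent.H543R3.PC2.Defs
import Pool.Agent.H543R3.PC2.W1
import Pool.Agent.H543R3.PC2.W2

namespace Pool.Agent.H543R3.PC2

open Pool.Agent.NPC Pool.Agent.H628R3.RO Pool.Agent.H543R3.PC

theorem okW_agB (S : Finset ℕ) (nH : ℕ) {B B' : List Bool → Bool} (G : GG) (z : List Bool)
    (h : AgB z.length B B') : okW S nH B' G z ↔ okW S nH B G z := sorry

theorem okW_sh (S : Finset ℕ) (nH : ℕ) (B : List Bool → Bool) (z : List Bool)
    (hg : wT z + zE z * (wT z + 1) + 2 ^ (zm z + 2) ≤ zR z) :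
    Sh (fun G => okW S nH B G z) (zE z * (wT z + 1) + 2 ^ (zm z + 2)) (zR z) := sorry

end Pool.Agent.H543R3.PC2
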